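import Mathlib

/-!
# MP_332034_al: subspace lattices over division rings versus over fields

Every lattice that embeds into the lattice of subspaces of a left vector space over a division ring
also embeds into the lattice of subspaces of a vector space over a (commutative) field.
-/

set_option autoImplicit false

namespace Pool.Agent.Results.MP_332034_al.RestrictScalars

universe u v w

/-- Negative answer to Q1. The field is the centre of the division ring and the vector space is
the same additive group. -/
theorem result (L : Type w) [Lattice L] (D : Type u) [DivisionRing D] (V : Type v)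
    [AddCommGroup V] [Module D V] (φ : L → Submodule D V) (hφ : Function.Injective φ)
    (hinf : ∀ a b, φ (a ⊓ b) = φ a ⊓ φ b) (hsup : ∀ a b, φ (a ⊔ b) = φ a ⊔ φ b) :
    ∃ (F : Type u) (_ : Field F) (_ : Module F V) (ψ : L → Submodule F V),
      Function.Injective ψ ∧ (∀ a b, ψ (a ⊓ b) = ψ a ⊓ ψ b) ∧
        ∀ a b, ψ (a ⊔ b) = ψ a ⊔ ψ b := by
  refine ⟨Subring.center D, inferInstance, inferInstance,
    fun a => (φ a).restrictScalars (Subring.center D), ?_, ?_, ?_⟩
  · exact (Submodule.restrictScalars_injective _ _ _).comp hφ
  · intro a b
    simp only [hinf]
    exact map_inf (Submodule.restrictScalarsLatticeHom (Subring.center D) D V) _ _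
  · intro a b
    simp only [hsup]
    exact map_sup (Submodule.restrictScalarsLatticeHom (Subring.center D) D V) _ _

end Pool.Agent.Results.MP_332034_al.RestrictScalars
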